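import Pool.Agent.Helper76.P13.StD
import Pool.Agent.Helper84.P13.D1

/-!
# Project P13 (levels `13^n`), module Om: the values at the origin (model: `Helper67/P11/M_Om.lean`)
-/

set_option autoImplicit false
set_option maxRecDepth 20000

namespace Pool.Agent.Helper48.P13L

open Pool.Agent.Helper76.P13D Pool.Agent.Helper84.P13 Pool.Agent.Helper28.P13
open Pool.Agent.Helper2.P13 (Rel13)

/-- entries prime to thirteen -/
private def good (L : List Tm) : Prop := ∀ t ∈ L, Gd t

private lemma good_nil : good [] := by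
  intro t ht
  cases ht

private lemma good_app {L L' : List Tm} (h : good L) (h' : good L') : good (L ++ L') := by
  intro t ht
  rcases List.mem_append.1 ht with h1 | h1
  · exact h t h1
  · exact h' t h1

private lemma good_scl (n : ℤ) {L : List Tm} (h : good L) : good (sclL n L) := by
  intro t ht
  unfold sclL at ht
  rw [List.mem_map] at ht
  obtain ⟨t', h1, rfl⟩ := ht
  exact h t' h1

private lemma good_mul {L L' : List Tm} (h : good L) (h' : good L') : good (mulL L L') :=
  ((opm 0 0).1 L L' h h').1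

private lemma good_id (i f : Fin 4) : good (id4 i f) := by
  unfold id4
  split_ifs
  · intro t ht
    rw [List.mem_singleton] at ht
    subst ht
    exact ⟨by norm_num, by norm_num⟩
  · exact good_nil

private lemma good_TM (hg : TCeG) {l : ℕ} (hl : l ∈ PrM) (i f : Fin 4) : good (TM l i f) :=
  fun t ht => hg.1 l hl i f t ht

private lemma good_mm {A B : Fin 4 → Fin 4 → List Tm} (hA : ∀ i f, good (A i f))
    (hB : ∀ i f, good (B i f)) (i f : Fin 4) : good (mm4 A B i f) := by
  unfold mm4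
  exact good_app (good_app (good_app (good_mul (hA _ _) (hB _ _)) (good_mul (hA _ _) (hB _ _)))
    (good_mul (hA _ _) (hB _ _))) (good_mul (hA _ _) (hB _ _))

private lemma good_wL (hg : TCeG) : ∀ ls : List ℕ, (∀ l ∈ ls, l ∈ PrM) →
    ∀ i f : Fin 4, good (wL ls i f)
  | [], _ => good_id
  | [l], h => good_TM hg (h l List.mem_cons_self)
  | l :: l' :: ls, h => fun i f =>
    good_mm (A := TM l) (B := wL (l' :: ls)) (good_TM hg (h l List.mem_cons_self))
      (good_wL hg (l' :: ls) fun x hx => h x (List.mem_cons_of_mem _ hx)) i f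

private lemma good_cL (hg : TCeG) (W : List (ℤ × List ℕ)) (hW : ∀ t ∈ W, ∀ l ∈ t.2, l ∈ PrM)
    (i f : Fin 4) : good (cL W i f) := by
  intro t ht
  unfold cL at ht
  rw [List.mem_flatMap] at ht
  obtain ⟨w, hw, h⟩ := ht
  exact good_scl _ (good_wL hg w.2 (hW w hw) i f) t h

private lemma OW_ok (c : ℕ) (hc : c ≤ 13) : ∀ t ∈ OW c, ∀ l ∈ t.2, l ∈ PrM := by
  interval_cases c <;> decide

private lemma nOM_le (c : ℕ) (hc : c ≤ 13) : nOM c ≤ 14 := by
  interval_cases c <;> decide

private lemma good_mR (hg : TCeG) (m : Fin 4 → List Tm) (hm : ∀ ρ, good (m ρ)) (f : Fin 4) :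
    good (mR m f) := by
  unfold mR
  exact good_app (good_app (good_app (good_mul (hm 0) (hg.2.1 0 f).1)
    (good_mul (hm 1) (hg.2.1 1 f).1)) (good_mul (hm 2) (hg.2.1 2 f).1))
    (good_mul (hm 3) (hg.2.1 3 f).1)

private lemma good_BOM (hg : TCeG) (c : ℕ) (hc : c ≤ 13) (f : Fin 4) : good (BOM c f) := by
  unfold BOM
  exact good_app (good_cL hg (OW c) (OW_ok c hc) 0 f)
    (good_scl _ (good_mR hg (mOM c) (fun ρ => hg.2.2 c hc ρ) f))

/-- multiples of the relations -/
private lemma mul_rel (hr : TRll) (hg : TCeG) {r s : ℕ} (F : Fin 4 → Fn13 (13 ^ r) (13 ^ s))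
    (hR : Rel13 F) (m : Fin 4 → List Tm) (hm : ∀ ρ, good (m ρ)) :
    ∑ f : Fin 4, opL (sclL (-1) (mR m f)) (F f) = 0 := by
  have e : ∀ ρ f : Fin 4,
      (opL (mulL (m ρ) (relM ρ f)) : Module.End (ZMod 13) (Fn13 (13 ^ r) (13 ^ s))) =
      opL (m ρ) * opL (relM ρ f) := fun ρ f =>
    ((opm r s).1 (m ρ) (relM ρ f) (hm ρ) fun t ht => (hg.2.1 ρ f).1 t ht).2
  have h2 : ∀ f : Fin 4, opL (sclL (-1) (mR m f)) (F f) =
      (((-1 : ℤ)) : ZMod 13) • ((opL (m 0)) (opL (relM 0 f) (F f)) +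
        (opL (m 1)) (opL (relM 1 f) (F f)) + (opL (m 2)) (opL (relM 2 f) (F f)) +
        (opL (m 3)) (opL (relM 3 f) (F f))) := by
    intro f
    rw [(opm r s).2.1, mR, (opm r s).2.2, (opm r s).2.2, (opm r s).2.2, e 0 f, e 1 f, e 2 f,
      e 3 f]
    rfl
  rw [Finset.sum_congr rfl fun f _ => h2 f, ← Finset.smul_sum, Finset.sum_add_distrib,
    Finset.sum_add_distrib, Finset.sum_add_distrib, ← map_sum, ← map_sum, ← map_sum, ← map_sum,
    hr r s F hR 0, hr r s F hR 1, hr r s F hR 2, hr r s F hR 3, map_zero, map_zero, map_zero,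
    map_zero, add_zero, add_zero, add_zero, smul_zero]

/-- OM. -/
theorem hOm (hr : TRll) (hg : TCeG) (ho : TOmg) (hc : TCeO) : TOm := by
  intro r s c F hc13 hR h
  have hBO : ∑ f : Fin 4, opL (cL (OW c) 0 f) (F f) = ∑ f : Fin 4, opL (BOM c f) (F f) := by
    have h2 : ∀ f : Fin 4, opL (BOM c f) (F f) = opL (cL (OW c) 0 f) (F f) +
        opL (sclL (-1) (mR (mOM c) f)) (F f) := by
      intro f
      rw [BOM, (opm r s).2.2, LinearMap.add_apply]
    rw [Finset.sum_congr rfl fun f _ => h2 f, Finset.sum_add_distrib,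
      mul_rel hr hg F hR (mOM c) (fun ρ => hg.2.2 c hc13 ρ), add_zero]
  have hn := nOM_le c hc13
  have hv : ∀ f : Fin 4, (opL (BOM c f) (F f) : Fn13 (13 ^ r) (13 ^ s)) 0 0 =
      (MoM c f.val (F f) : Fn13 (13 ^ r) (13 ^ s)) 0 0 := by
    intro f
    rw [ho r s (BOM c f) (nOM c) (qOM c f.val) hn (good_BOM hg c hc13 f) (hc c hc13 f) (F f)
      (h f)]
    unfold MoM
    rw [LinearMap.sum_apply, Finset.sum_apply, Finset.sum_apply]
    rfl
  rw [hBO, Finset.sum_apply, Finset.sum_apply]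
  exact Finset.sum_congr rfl fun f _ => hv f

end Pool.Agent.Helper48.P13L
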